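import Mathlib

/-! Ultraproducts of tracial C*-algebras: an exact statement about families of unitaries with the
free law passes to families with approximately the free law. -/

open scoped ENNReal ComplexOrder
open Filter

namespace Pool.Agent.H770R2.UL

/-- a tracial state on a unital C*-algebra -/
structure TrSt (A : Type) [CStarAlgebra A] where
  toFun : A →ₗ[ℂ] ℂ
  one : toFun 1 = 1
  tr : ∀ x y, toFun (x * y) = toFun (y * x)
  pos : ∀ x, 0 ≤ toFun (star x * x)
  bdd : ∀ x, ‖toFun x‖ ≤ ‖x‖

variable {A : Type} [CStarAlgebra A]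

/-- the 2-norm of a tracial state -/
noncomputable def n2 (φ : TrSt A) (x : A) : ℝ := Real.sqrt (φ.toFun (star x * x)).re

theorem n2_nonneg (φ : TrSt A) (x : A) : 0 ≤ n2 φ x := Real.sqrt_nonneg _

theorem n2_sq (φ : TrSt A) (x : A) : n2 φ x ^ 2 = (φ.toFun (star x * x)).re := by
  unfold n2
  rw [Real.sq_sqrt]
  exact (Complex.le_def.1 (φ.pos x)).1

/-- The conclusion of the flow theorem: the family `π` can be moved by at most `ε` in the 2-norm,
without moving the members with index in `S`, such that the word `g` comes `ε`-close to `π v`. -/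
def Good {κ : Type} (ε : ℝ) (S : Set κ) (g v : FreeGroup κ) (A : Type) [CStarAlgebra A]
    (φ : TrSt A) (π : FreeGroup κ →* unitary A) : Prop :=
  ∃ π' : FreeGroup κ →* unitary A,
    (∀ i ∈ S, π' (FreeGroup.of i) = π (FreeGroup.of i)) ∧
    (∀ i, n2 φ ((π' (FreeGroup.of i) : A) - (π (FreeGroup.of i) : A)) ≤ ε) ∧
    n2 φ ((π' g : A) - (π v : A)) ≤ ε

/-! ### the ultraproduct -/

section

variable (M : ℕ → Type) [∀ k, CStarAlgebra (M k)] [∀ k, Nontrivial (M k)]

noncomputable instance instLp : CStarAlgebra (lp M ∞) where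

variable {M}

omit [∀ k, Nontrivial (M k)] in
theorem lp_coe_star (x : lp M ∞) (n : ℕ) : (star x : lp M ∞) n = star (x n) := rfl

omit [∀ k, Nontrivial (M k)] in
theorem lp_coe_mul (x y : lp M ∞) (n : ℕ) : (x * y : lp M ∞) n = x n * y n := rfl

omit [∀ k, Nontrivial (M k)] in
theorem lp_norm_apply_le (x : lp M ∞) (n : ℕ) : ‖x n‖ ≤ ‖x‖ :=
  lp.norm_apply_le_norm (by simp) x n

omit [∀ k, Nontrivial (M k)] in
/-- the limit functional exists -/
theorem exists_ulim (ω : Ultrafilter ℕ) (φ : ∀ k, TrSt (M k)) (x : lp M ∞) :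
    ∃ c : ℂ, Tendsto (fun n => (φ n).toFun (x n)) ω (nhds c) := by
  have hK : IsCompact (Metric.closedBall (0 : ℂ) ‖x‖) := isCompact_closedBall _ _
  have h1 : ∀ n, (φ n).toFun (x n) ∈ Metric.closedBall (0 : ℂ) ‖x‖ := by
    intro n
    rw [mem_closedBall_zero_iff]
    exact ((φ n).bdd (x n)).trans (lp_norm_apply_le x n)
  have h2 : (↑(ω.map (fun n => (φ n).toFun (x n))) : Filter ℂ) ≤
      Filter.principal (Metric.closedBall (0 : ℂ) ‖x‖) := by
    rw [Filter.le_principal_iff]
    show _ ∈ Filter.map _ _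
    rw [Filter.mem_map]
    exact Filter.univ_mem' h1
  obtain ⟨c, -, hc⟩ := hK.ultrafilter_le_nhds _ h2
  exact ⟨c, hc⟩

omit [∀ k, Nontrivial (M k)] in
/-- the limit functional -/
noncomputable def ulim (ω : Ultrafilter ℕ) (φ : ∀ k, TrSt (M k)) (x : lp M ∞) : ℂ :=
  (exists_ulim ω φ x).choose

omit [∀ k, Nontrivial (M k)] in
theorem tendsto_ulim (ω : Ultrafilter ℕ) (φ : ∀ k, TrSt (M k)) (x : lp M ∞) :
    Tendsto (fun n => (φ n).toFun (x n)) ω (nhds (ulim ω φ x)) :=
  (exists_ulim ω φ x).choose_spec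

omit [∀ k, Nontrivial (M k)] in
theorem ulim_eq (ω : Ultrafilter ℕ) (φ : ∀ k, TrSt (M k)) (x : lp M ∞) {c : ℂ}
    (h : Tendsto (fun n => (φ n).toFun (x n)) ω (nhds c)) : ulim ω φ x = c :=
  tendsto_nhds_unique (tendsto_ulim ω φ x) h

/-- the ultraproduct tracial state -/
noncomputable def ust (ω : Ultrafilter ℕ) (φ : ∀ k, TrSt (M k)) : TrSt (lp M ∞) where
  toFun :=
    { toFun := ulim ω φ
      map_add' := by
        intro x y
        apply ulim_eq
        have h := (tendsto_ulim ω φ x).add (tendsto_ulim ω φ y)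
        refine h.congr fun n => ?_
        rw [← map_add]
        rfl
      map_smul' := by
        intro c x
        apply ulim_eq
        have h := (tendsto_ulim ω φ x).const_mul c
        refine h.congr fun n => ?_
        rw [← smul_eq_mul, ← map_smul]
        rfl }
  one := by
    apply ulim_eq
    have h : (fun n => (φ n).toFun ((1 : lp M ∞) n)) = fun _ => (1 : ℂ) := by
      funext n
      exact (φ n).one
    rw [h]
    exact tendsto_const_nhds
  tr := by
    intro x y
    apply ulim_eq
    refine (tendsto_ulim ω φ (y * x)).congr fun n => ?_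
    exact ((φ n).tr (x n) (y n)).symm
  pos := by
    intro x
    exact ge_of_tendsto' (tendsto_ulim ω φ (star x * x)) fun n => (φ n).pos (x n)
  bdd := by
    intro x
    refine le_of_tendsto' (tendsto_ulim ω φ x).norm fun n => ?_
    exact ((φ n).bdd (x n)).trans (lp_norm_apply_le x n)

theorem tendsto_n2 (ω : Ultrafilter ℕ) (φ : ∀ k, TrSt (M k)) (x : lp M ∞) :
    Tendsto (fun n => n2 (φ n) (x n)) ω (nhds (n2 (ust ω φ) x)) := by
  have h := tendsto_ulim ω φ (star x * x)
  have h2 := (Complex.continuous_re.tendsto _).comp h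
  exact (Real.continuous_sqrt.tendsto _).comp h2

/-- a family of unitaries gives a unitary of the product -/
noncomputable def mkU (u : ∀ n, unitary (M n)) : unitary (lp M ∞) :=
  ⟨⟨fun n => (u n : M n), memℓp_infty ⟨1, by
      rintro _ ⟨n, rfl⟩
      exact (CStarRing.norm_coe_unitary (u n)).le⟩⟩, by
    rw [Unitary.mem_iff]
    constructor
    · ext n
      exact (Unitary.mem_iff.1 (u n).2).1
    · ext n
      exact (Unitary.mem_iff.1 (u n).2).2⟩

theorem mkU_apply (u : ∀ n, unitary (M n)) (n : ℕ) : ((mkU u : unitary (lp M ∞)) : lp M ∞) n = u n :=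
  rfl

/-- the product of homomorphisms -/
noncomputable def mkHom {Γ : Type} [Group Γ] (π : ∀ n, Γ →* unitary (M n)) :
    Γ →* unitary (lp M ∞) where
  toFun w := mkU fun n => π n w
  map_one' := by
    apply Subtype.ext
    ext n
    show ((π n 1 : unitary (M n)) : M n) = _
    rw [map_one]
    rfl
  map_mul' a b := by
    apply Subtype.ext
    ext n
    show ((π n (a * b) : unitary (M n)) : M n) = _
    rw [map_mul]
    rfl

theorem mkHom_apply {Γ : Type} [Group Γ] (π : ∀ n, Γ →* unitary (M n)) (w : Γ) (n : ℕ) :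
    ((mkHom π w : unitary (lp M ∞)) : lp M ∞) n = π n w := rfl

/-- the components of a unitary of the product -/
noncomputable def compU (u : unitary (lp M ∞)) (n : ℕ) : unitary (M n) :=
  ⟨(u : lp M ∞) n, by
    have h := Unitary.mem_iff.1 u.2
    rw [Unitary.mem_iff]
    constructor
    · have h1 := congrArg (fun y : lp M ∞ => y n) h.1
      exact h1
    · have h1 := congrArg (fun y : lp M ∞ => y n) h.2
      exact h1⟩

/-- the components of a homomorphism into the unitaries of the product -/
noncomputable def compHom {Γ : Type} [Group Γ] (π : Γ →* unitary (lp M ∞)) (n : ℕ) :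
    Γ →* unitary (M n) where
  toFun w := compU (π w) n
  map_one' := by
    apply Subtype.ext
    show ((π 1 : unitary (lp M ∞)) : lp M ∞) n = _
    rw [map_one]
    rfl
  map_mul' a b := by
    apply Subtype.ext
    show ((π (a * b) : unitary (lp M ∞)) : lp M ∞) n = _
    rw [map_mul]
    rfl

theorem compHom_apply {Γ : Type} [Group Γ] (π : Γ →* unitary (lp M ∞)) (n : ℕ) (w : Γ) :
    ((compHom π n w : unitary (M n)) : M n) = ((π w : unitary (lp M ∞)) : lp M ∞) n := rfl

end

theorem nontrivial_of_TrSt {A : Type} [CStarAlgebra A] (φ : TrSt A) : Nontrivial A := by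
  by_contra h
  rw [not_nontrivial_iff_subsingleton] at h
  have h1 : (1 : A) = 0 := Subsingleton.elim _ _
  have h2 := φ.one
  rw [h1, map_zero] at h2
  exact zero_ne_one h2

/-- THE TRANSFER THEOREM: an exact statement for all tracial C*-algebras passes to families with
approximately the free law. (All but finitely many members of the family must be kept fixed.) -/
theorem transfer {κ : Type} [Countable κ] (ε ε' : ℝ) (hε : ε < ε') (S : Set κ) (hκ : Sᶜ.Finite)
    (g v : FreeGroup κ)
    (h : ∀ (A : Type) [CStarAlgebra A] (φ : TrSt A) (π : FreeGroup κ →* unitary A),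
      (∀ w, w ≠ 1 → φ.toFun (π w : A) = 0) → Good ε S g v A φ π) :
    ∃ (W : Finset (FreeGroup κ)) (δ : ℝ), 0 < δ ∧
      ∀ (A : Type) [CStarAlgebra A] (φ : TrSt A) (π : FreeGroup κ →* unitary A),
      (∀ w ∈ W, w ≠ 1 → ‖φ.toFun (π w : A)‖ ≤ δ) → Good ε' S g v A φ π := by
  classical
  by_contra hcon
  push Not at hcon
  -- enumeration of the words
  obtain ⟨e, he⟩ : ∃ e : ℕ → FreeGroup κ, Function.Surjective e :=
    exists_surjective_nat (FreeGroup κ)
  have hn : ∀ n : ℕ, ∃ (A : Type) (x : CStarAlgebra A) (φ : TrSt A)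
      (π : FreeGroup κ →* unitary A),
      (∀ w ∈ (Finset.range (n + 1)).image e, w ≠ 1 → ‖φ.toFun (π w : A)‖ ≤ 1 / ((n : ℝ) + 1)) ∧
      ¬ Good ε' S g v A φ π := fun n =>
    hcon ((Finset.range (n + 1)).image e) (1 / ((n : ℝ) + 1)) (by positivity)
  choose M instM φ π h1 h2 using hn
  have : ∀ n, Nontrivial (M n) := fun n => nontrivial_of_TrSt (φ n)
  let ω : Ultrafilter ℕ := Filter.hyperfilter ℕ
  have hω : (ω : Filter ℕ) ≤ Filter.atTop := by
    rw [← Nat.cofinite_eq_atTop]
    exact Filter.hyperfilter_le_cofinite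
  obtain ⟨π', hS, hm, hg⟩ := h (lp M ∞) (ust ω φ) (mkHom π) (by
    intro w hw
    apply ulim_eq
    refine Tendsto.mono_left ?_ hω
    obtain ⟨k, rfl⟩ := he w
    rw [tendsto_zero_iff_norm_tendsto_zero]
    refine squeeze_zero' (Filter.Eventually.of_forall fun n => norm_nonneg _) ?_
      tendsto_one_div_add_atTop_nhds_zero_nat
    filter_upwards [Filter.eventually_ge_atTop k] with n hn
    exact h1 n (e k) (Finset.mem_image_of_mem _ (Finset.mem_range.2 (by omega))) hw)
  have e1 : ∀ i, ∀ᶠ n in (ω : Filter ℕ),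
      n2 (φ n) ((compHom π' n (FreeGroup.of i) : M n) - (π n (FreeGroup.of i) : M n)) ≤ ε' := by
    intro i
    have ht := tendsto_n2 ω φ
      ((π' (FreeGroup.of i) : lp M ∞) - (mkHom π (FreeGroup.of i) : lp M ∞))
    have := ht.eventually (eventually_lt_nhds (lt_of_le_of_lt (hm i) hε))
    filter_upwards [this] with n hn
    exact hn.le
  have e2 : ∀ᶠ n in (ω : Filter ℕ), n2 (φ n) ((compHom π' n g : M n) - (π n v : M n)) ≤ ε' := by
    have ht := tendsto_n2 ω φ ((π' g : lp M ∞) - (mkHom π v : lp M ∞))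
    have := ht.eventually (eventually_lt_nhds (lt_of_le_of_lt hg hε))
    filter_upwards [this] with n hn
    exact hn.le
  have e3 := (((Set.Finite.eventually_all hκ).2 fun i _ => e1 i)).and e2
  obtain ⟨n, hn1, hn2⟩ := e3.exists
  have hS' : ∀ i ∈ S, compHom π' n (FreeGroup.of i) = π n (FreeGroup.of i) := by
    intro i hi
    apply Subtype.ext
    rw [compHom_apply, hS i hi]
    rfl
  apply h2 n
  refine ⟨compHom π' n, hS', fun i => ?_, hn2⟩
  by_cases hi : i ∈ S
  · have h0 : (0 : ℝ) ≤ ε' := by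
      have := (n2_nonneg _ _).trans (hm i)
      linarith
    rw [hS' i hi, sub_self]
    unfold n2
    simpa using h0
  · exact hn1 i hi

end Pool.Agent.H770R2.UL
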